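import Pool.Agent.N594.NT.Stm3
import Pool.Agent.N674.NT.VH

/-!
# Project NT2 (helper594), leaf XVH (helper644): a pair of almost full degree inside a part, exact
version; after helper674's file `Pool.Agent.N674.NT.VH`
-/

set_option autoImplicit false

open Finset
open scoped Classical

namespace Pool.Agent.N644.NT.XVH

open Pool.Agent.TH200.LP Pool.Agent.N594.NT
open Pool.Agent.N674.NT.VH (Ix lab card_Ix fib_i fib split_none conf av_sum_le av_inst av_ind_mul)

theorem conf_inj {V ι : Type} (x y : V) (hne : x ≠ y) (ω : ι → V) (hi : Function.Injective ω)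
    (hx : ∀ p, ω p ≠ x) (hy : ∀ p, ω p ≠ y) : Function.Injective (conf x y ω) := by
  intro a b hab
  rcases a with _ | _ | p <;> rcases b with _ | _ | q
  · rfl
  · exact absurd hab hne
  · exact absurd hab.symm (hx q)
  · exact absurd hab.symm hne
  · rfl
  · exact absurd hab.symm (hy q)
  · exact absurd hab (hx p)
  · exact absurd hab (hy p)
  · exact congrArg (fun z => some (some z)) (hi hab)

theorem point (d k : ℕ) (hk : 2 ≤ k) {V : Type} (H : Finset V → Prop) (π : V → Fin k)
    (hF : FrI d k H) (x y : V) (hxne : x ≠ y) (hxy : π x = π y) (ω : Ix d (π x) → V)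
    (hω : ∀ p, π (ω p) = lab d (π x) p) (hi : Function.Injective ω) (hx : ∀ p, ω p ≠ x)
    (hy : ∀ p, ω p ≠ y) :
    (∃ (J : Finset (Ix d (π x))) (p p' : Ix d (π x)), (J.card = d + 2 ∧ p ∈ J ∧ p' ∈ J ∧ p ≠ p') ∧
      π (ω p) ≠ π (ω p') ∧ ¬ H (J.image ω)) ∨
    (∃ J : Finset (Ix d (π x)), J.card = d ∧ ¬ H (insert x (insert y (J.image ω)))) ∨
    (∃ (J : Finset (Ix d (π x))) (p : Ix d (π x)), (J.card = d + 1 ∧ p ∈ J) ∧
      π x ≠ π (ω p) ∧ ¬ H (insert x (J.image ω))) ∨
    (∃ (J : Finset (Ix d (π x))) (p : Ix d (π x)), (J.card = d + 1 ∧ p ∈ J) ∧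
      π y ≠ π (ω p) ∧ ¬ H (insert y (J.image ω))) := by
  have hcard : Fintype.card (Option (Option (Ix d (π x)))) = k * (d + 1) + 1 := by
    rw [Fintype.card_option, Fintype.card_option, card_Ix]
    obtain ⟨k', rfl⟩ : ∃ k', k = k' + 1 := ⟨k - 1, by omega⟩
    rw [Nat.add_sub_cancel]
    ring
  obtain ⟨J0, hJ0, hH⟩ := hF (fun a => conf x y ω ((Fintype.equivFinOfCardEq hcard).symm a))
    ((conf_inj x y hxne ω hi hx hy).comp (Equiv.injective _))
  obtain ⟨J1, hJ1⟩ : ∃ J1, J1 = J0.image (Fintype.equivFinOfCardEq hcard).symm := ⟨_, rfl⟩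
  have hc1 : J1.card = d + 2 := by
    rw [hJ1, card_image_of_injective _ (Equiv.injective _), hJ0]
  have hi1 : J0.image (fun a => conf x y ω ((Fintype.equivFinOfCardEq hcard).symm a)) =
      J1.image (conf x y ω) := by
    rw [hJ1, image_image]
    rfl
  rw [hi1] at hH
  obtain ⟨s1, s2⟩ := split_none J1 (conf x y ω)
  obtain ⟨s3, s4⟩ := split_none (eraseNone J1) (fun a => conf x y ω (some a))
  have hne : ∀ J : Finset (Ix d (π x)), J.card = d + 1 → ∃ p ∈ J, π x ≠ π (ω p) := by
    intro J hJ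
    by_contra hcon
    push Not at hcon
    have h1 := fib_i d (π x) J fun p hp => by rw [← hω p]; exact (hcon p hp).symm
    omega
  by_cases c1 : none ∈ J1
  · obtain ⟨e1, e2⟩ := s1 c1
    by_cases c2 : none ∈ eraseNone J1
    · obtain ⟨e3, e4⟩ := s3 c2
      right; left
      refine ⟨eraseNone (eraseNone J1), by omega, ?_⟩
      rw [e2, e4] at hH
      exact hH
    · obtain ⟨e3, e4⟩ := s4 c2
      right; right; left
      have hJ : (eraseNone (eraseNone J1)).card = d + 1 := by omega
      obtain ⟨p, hp, hp2⟩ := hne _ hJ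
      refine ⟨eraseNone (eraseNone J1), p, ⟨hJ, hp⟩, hp2, ?_⟩
      rw [e2, e4] at hH
      exact hH
  · obtain ⟨e1, e2⟩ := s2 c1
    by_cases c2 : none ∈ eraseNone J1
    · obtain ⟨e3, e4⟩ := s3 c2
      right; right; right
      have hJ : (eraseNone (eraseNone J1)).card = d + 1 := by omega
      obtain ⟨p, hp, hp2⟩ := hne _ hJ
      refine ⟨eraseNone (eraseNone J1), p, ⟨hJ, hp⟩, hxy ▸ hp2, ?_⟩
      rw [e2, e4] at hH
      exact hH
    · obtain ⟨e3, e4⟩ := s4 c2
      left
      have hJ : (eraseNone (eraseNone J1)).card = d + 2 := by omega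
      have h1 : ∃ p ∈ eraseNone (eraseNone J1), ∃ p' ∈ eraseNone (eraseNone J1),
          π (ω p) ≠ π (ω p') := by
        by_contra hcon
        push Not at hcon
        obtain ⟨p0, hp0⟩ : (eraseNone (eraseNone J1)).Nonempty := by
          rw [← card_pos]
          omega
        have h2 := fib d (π x) (π (ω p0)) _ fun p hp => by
          rw [← hω p]
          exact hcon p hp p0 hp0
        omega
      obtain ⟨p, hp, p', hp', hpp⟩ := h1
      refine ⟨eraseNone (eraseNone J1), p, p', ⟨hJ, hp, hp', ?_⟩, hpp, ?_⟩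
      · rintro rfl
        exact hpp rfl
      · rw [e2, e4] at hH
        exact hH

theorem mdg_nonneg (d : ℕ) {V : Type} [Fintype V] (H : Finset V → Prop) (x y : V) :
    0 ≤ mdg d H x y := av_nonneg fun _ => ind_nonneg _

theorem rsi_nonneg (d : ℕ) {V κ : Type} [Fintype V] (H : Finset V → Prop) (π : V → κ)
    (x : V) : 0 ≤ rsi d H π x :=
  av_nonneg fun y => mul_nonneg (ind_nonneg _) (mdg_nonneg d H x y)

theorem lsi_nonneg (d : ℕ) {V κ : Type} [Fintype V] (H : Finset V → Prop) (π : V → κ) :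
    0 ≤ lsi d H π := av_nonneg fun x => rsi_nonneg d H π x

theorem av_ind_eq {V : Type} [Fintype V] (a : V) :
    (av fun b : V => ind (a = b)) = 1 / (Fintype.card V : ℝ) := by
  unfold av
  congr 1
  rw [sum_eq_single a]
  · exact ind_true rfl
  · intro b _ hb
    exact ind_false fun h => hb h.symm
  · intro h
    exact absurd (mem_univ a) h

theorem one_pull' {V : Type} [Fintype V] [Nonempty V] {ι : Type} [Fintype ι] (i : ι) (F : V → ℝ) :
    (av fun ω : ι → V => F (ω i)) = av F := by
  have hσ : Function.Injective (fun _ : Fin 1 => i) := fun a b _ => Subsingleton.elim a b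
  have h := av_pull (V := V) (fun _ : Fin 1 => i) hσ (fun W => F (W 0))
  refine ((av_inst _ _ _).trans h).trans ?_
  rw [av_cons]
  congr 1
  funext x
  rw [av_zero]
  rfl

theorem main (hQ0 : Pool.Agent.N594.NT.S_Q0) (hQ1 : Pool.Agent.N594.NT.S_Q1)
    (hQ2 : Pool.Agent.N594.NT.S_Q2) : Pool.Agent.N594.NT.S_XVH := by
  intro d k hd hk
  obtain ⟨n, hn⟩ : ∃ n, n = d + (k - 1) * (d + 1) := ⟨_, rfl⟩
  obtain ⟨u, hu⟩ : ∃ u : ℝ, u = (1 / (2 * (k : ℝ))) ^ n := ⟨_, rfl⟩
  obtain ⟨N, hN⟩ : ∃ N : ℝ, N = 2 ^ n * ((n : ℝ) + 1) ^ 2 := ⟨_, rfl⟩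
  have hk0 : (0 : ℝ) < k := by exact_mod_cast (by omega : 0 < k)
  have hu0 : 0 < u := by rw [hu]; positivity
  have hN0 : 0 < N := by rw [hN]; positivity
  obtain ⟨N0, hN0'⟩ := exists_nat_ge (2 * ((n : ℝ) ^ 2 + 2 * n) / u)
  refine ⟨u / (8 * N), by positivity, N0, fun V _ _ H π hV hF hπ hls x y hxne hxy hcd => ?_⟩
  obtain ⟨c, hc⟩ : ∃ c, c = u / (8 * N) := ⟨_, rfl⟩
  rw [← hc] at hls hcd ⊢
  have hc0 : 0 < c := by rw [hc]; positivity
  have hNc : 8 * (N * c) = u := by
    rw [hc]
    field_simp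
  have hcI : Fintype.card (Ix d (π x)) = n := by rw [card_Ix, hn]
  have hnV : (0 : ℝ) < Fintype.card V := by exact_mod_cast Fintype.card_pos
  -- the events
  obtain ⟨ta, hta⟩ : ∃ ta : Finset (Ix d (π x)) × Ix d (π x) × Ix d (π x) → (Ix d (π x) → V) → ℝ,
      ta = fun q ω => ind (q.1.card = d + 2 ∧ q.2.1 ∈ q.1 ∧ q.2.2 ∈ q.1 ∧ q.2.1 ≠ q.2.2) *
        (ind (π (ω q.2.1) ≠ π (ω q.2.2)) *
          ind (Function.Injective ω ∧ ¬ H (q.1.image ω))) := ⟨_, rfl⟩
  obtain ⟨tb, htb⟩ : ∃ tb : Finset (Ix d (π x)) → (Ix d (π x) → V) → ℝ,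
      tb = fun J ω => ind (J.card = d) *
        ind ((Function.Injective ω ∧ (∀ p, ω p ≠ x) ∧ ∀ p, ω p ≠ y) ∧
          ¬ H (insert x (insert y (J.image ω)))) := ⟨_, rfl⟩
  obtain ⟨tc, htc⟩ : ∃ tc : V → Finset (Ix d (π x)) × Ix d (π x) → (Ix d (π x) → V) → ℝ,
      tc = fun z q ω => ind (q.1.card = d + 1 ∧ q.2 ∈ q.1) *
        (ind (π z ≠ π (ω q.2)) *
          ind ((Function.Injective ω ∧ ∀ p, ω p ≠ z) ∧ ¬ H (insert z (q.1.image ω)))) :=
    ⟨_, rfl⟩
  obtain ⟨td, htd⟩ : ∃ td : Ix d (π x) × Ix d (π x) → (Ix d (π x) → V) → ℝ,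
      td = fun q ω => ind (q.1 ≠ q.2) * ind (ω q.1 = ω q.2) := ⟨_, rfl⟩
  obtain ⟨te, hte⟩ : ∃ te : V → Ix d (π x) → (Ix d (π x) → V) → ℝ,
      te = fun z p ω => ind (z = ω p) := ⟨_, rfl⟩
  have ta0 : ∀ q ω, 0 ≤ ta q ω := fun q ω => by
    rw [hta]; exact mul_nonneg (ind_nonneg _) (mul_nonneg (ind_nonneg _) (ind_nonneg _))
  have tb0 : ∀ q ω, 0 ≤ tb q ω := fun q ω => by
    rw [htb]; exact mul_nonneg (ind_nonneg _) (ind_nonneg _)
  have tc0 : ∀ z q ω, 0 ≤ tc z q ω := fun z q ω => by
    rw [htc]; exact mul_nonneg (ind_nonneg _) (mul_nonneg (ind_nonneg _) (ind_nonneg _))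
  have td0 : ∀ q ω, 0 ≤ td q ω := fun q ω => by
    rw [htd]; exact mul_nonneg (ind_nonneg _) (ind_nonneg _)
  have te0 : ∀ z q ω, 0 ≤ te z q ω := fun z q ω => by
    rw [hte]; exact ind_nonneg _
  have hpt : ∀ ω : Ix d (π x) → V, ind (∀ p, π (ω p) = lab d (π x) p) ≤
      ((∑ q, ta q ω + ∑ q, tb q ω) + (∑ q, tc x q ω + ∑ q, tc y q ω)) +
        (∑ q, td q ω + (∑ q, te x q ω + ∑ q, te y q ω)) := by
    intro ω
    have a0 : 0 ≤ ∑ q, ta q ω := sum_nonneg fun q _ => ta0 q ω
    have b0 : 0 ≤ ∑ q, tb q ω := sum_nonneg fun q _ => tb0 q ω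
    have c0 : 0 ≤ ∑ q, tc x q ω := sum_nonneg fun q _ => tc0 x q ω
    have d0 : 0 ≤ ∑ q, tc y q ω := sum_nonneg fun q _ => tc0 y q ω
    have e0 : 0 ≤ ∑ q, td q ω := sum_nonneg fun q _ => td0 q ω
    have f0 : 0 ≤ ∑ q, te x q ω := sum_nonneg fun q _ => te0 x q ω
    have g0 : 0 ≤ ∑ q, te y q ω := sum_nonneg fun q _ => te0 y q ω
    by_cases hω : ∀ p, π (ω p) = lab d (π x) p
    · rw [ind_true hω]
      by_cases hi : Function.Injective ω
      · by_cases hx : ∀ p, ω p ≠ x
        · by_cases hy : ∀ p, ω p ≠ y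
          · rcases point d k hk H π hF x y hxne hxy ω hω hi hx hy with h | h | h | h
            · obtain ⟨J, p, p', h1, h2, h3⟩ := h
              have h4 : ta (J, p, p') ω = 1 := by
                rw [hta]
                simp only
                rw [ind_true h1, ind_true h2, ind_true ⟨hi, h3⟩]
                norm_num
              have h5 := single_le_sum (f := fun q => ta q ω) (fun q _ => ta0 q ω)
                (mem_univ (J, p, p'))
              simp only [h4] at h5
              linarith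
            · obtain ⟨J, h1, h3⟩ := h
              have h4 : tb J ω = 1 := by
                rw [htb]
                simp only
                rw [ind_true h1, ind_true ⟨⟨hi, hx, hy⟩, h3⟩]
                norm_num
              have h5 := single_le_sum (f := fun q => tb q ω) (fun q _ => tb0 q ω) (mem_univ J)
              simp only [h4] at h5
              linarith
            · obtain ⟨J, p, h1, h2, h3⟩ := h
              have h4 : tc x (J, p) ω = 1 := by
                rw [htc]
                simp only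
                rw [ind_true h1, ind_true h2, ind_true ⟨⟨hi, hx⟩, h3⟩]
                norm_num
              have h5 := single_le_sum (f := fun q => tc x q ω) (fun q _ => tc0 x q ω)
                (mem_univ (J, p))
              simp only [h4] at h5
              linarith
            · obtain ⟨J, p, h1, h2, h3⟩ := h
              have h4 : tc y (J, p) ω = 1 := by
                rw [htc]
                simp only
                rw [ind_true h1, ind_true h2, ind_true ⟨⟨hi, hy⟩, h3⟩]
                norm_num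
              have h5 := single_le_sum (f := fun q => tc y q ω) (fun q _ => tc0 y q ω)
                (mem_univ (J, p))
              simp only [h4] at h5
              linarith
          · push Not at hy
            obtain ⟨p, hp⟩ := hy
            have h4 : te y p ω = 1 := by
              rw [hte]
              simp only
              exact ind_true hp.symm
            have h5 := single_le_sum (f := fun q => te y q ω) (fun q _ => te0 y q ω) (mem_univ p)
            simp only [h4] at h5
            linarith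
        · push Not at hx
          obtain ⟨p, hp⟩ := hx
          have h4 : te x p ω = 1 := by
            rw [hte]
            simp only
            exact ind_true hp.symm
          have h5 := single_le_sum (f := fun q => te x q ω) (fun q _ => te0 x q ω) (mem_univ p)
          simp only [h4] at h5
          linarith
      · have h1 : ∃ p p' : Ix d (π x), ω p = ω p' ∧ p ≠ p' := by
          by_contra hcon
          push Not at hcon
          exact hi fun p p' h => hcon p p' h
        obtain ⟨p, p', h2, h3⟩ := h1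
        have h4 : td (p, p') ω = 1 := by
          rw [htd]
          simp only
          rw [ind_true h3, ind_true h2]
          norm_num
        have h5 := single_le_sum (f := fun q => td q ω) (fun q _ => td0 q ω) (mem_univ (p, p'))
        simp only [h4] at h5
        linarith
    · rw [ind_false hω]
      linarith
  have havg := av_mono hpt
  rw [av_add, av_add, av_add, av_add, av_add, av_add] at havg
  -- the probability of the event
  have hev : u ≤ av fun ω : Ix d (π x) → V => ind (∀ p, π (ω p) = lab d (π x) p) := by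
    have e1 : (av fun ω : Ix d (π x) → V => ind (∀ p, π (ω p) = lab d (π x) p)) =
        ∏ p : Ix d (π x), av fun v : V => ind (π v = lab d (π x) p) := by
      rw [← av_prod_gen (fun (p : Ix d (π x)) (v : V) => ind (π v = lab d (π x) p))]
      congr 1
      funext ω
      exact ind_forall_gen fun p => π (ω p) = lab d (π x) p
    rw [e1, hu, ← hcI, ← card_univ, ← prod_const]
    exact prod_le_prod (fun _ _ => by positivity) fun p _ => hπ _
  -- the averages of the terms
  have h1 := av_sum_le ta (lsi d H π) fun q => by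
    rw [hta]
    refine av_ind_mul _ _ _ (lsi_nonneg d H π) fun hq => ?_
    have h2 := hQ0 d V H (Ix d (π x)) q.1 q.2.1 q.2.2 (fun a b => ind (π a ≠ π b))
      (fun _ _ => ind_nonneg _) hq.2.1 hq.2.2.1 hq.2.2.2 hq.1
    exact (le_of_eq (av_inst _ _ _)).trans h2
  have h2 := av_sum_le tb c fun J => by
    rw [htb]
    refine av_ind_mul _ _ _ hc0.le fun hq => ?_
    exact ((le_of_eq (av_inst _ _ _)).trans (hQ2 d V H (Ix d (π x)) J x y hxne hq)).trans hcd
  have h3 : ∀ z : V, (av fun ω => ∑ q, tc z q ω) ≤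
      (Fintype.card (Finset (Ix d (π x)) × Ix d (π x)) : ℝ) * rsi d H π z := fun z =>
    av_sum_le (tc z) (rsi d H π z) fun q => by
      rw [htc]
      refine av_ind_mul _ _ _ (rsi_nonneg d H π z) fun hq => ?_
      exact (le_of_eq (av_inst _ _ _)).trans
        (hQ1 d V H (Ix d (π x)) q.1 q.2 z (fun a => ind (π z ≠ π a)) (fun _ => ind_nonneg _)
          hq.2 hq.1)
  have h4 := h3 x
  have h5 := h3 y
  have hc1 : (0 : ℝ) ≤ 1 / (Fintype.card V : ℝ) := by positivity
  have h6 := av_sum_le td (1 / (Fintype.card V : ℝ)) fun q => by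
    rw [htd]
    refine av_ind_mul _ _ _ hc1 fun hq => le_of_eq ?_
    have g1 := pair_pull (V := V) hq (fun a b => ind (a = b))
    refine ((av_inst _ _ _).trans g1).trans ?_
    simp only [av_ind_eq]
    exact av_const _
  have h7 : ∀ z : V, (av fun ω => ∑ q, te z q ω) ≤
      (Fintype.card (Ix d (π x)) : ℝ) * (1 / (Fintype.card V : ℝ)) := fun z =>
    av_sum_le (te z) (1 / (Fintype.card V : ℝ)) fun q => by
      rw [hte]
      refine le_of_eq ?_
      exact (av_inst _ _ _).trans ((one_pull' q (fun v => ind (z = v))).trans (av_ind_eq z))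
  have h8 := h7 x
  have h9 := h7 y
  rw [Fintype.card_prod, Fintype.card_prod, Fintype.card_finset, hcI] at h1
  rw [Fintype.card_finset, hcI] at h2
  rw [Fintype.card_prod, Fintype.card_finset, hcI] at h4 h5
  rw [Fintype.card_prod, hcI] at h6
  rw [hcI] at h8 h9
  push_cast at h1 h2 h4 h5 h6 h8 h9
  have hn0 : (0 : ℝ) ≤ n := Nat.cast_nonneg n
  have hp0 : (0 : ℝ) < 2 ^ n := by positivity
  have n1 : (2 : ℝ) ^ n * ((n : ℝ) * n) ≤ N := by
    rw [hN]
    apply mul_le_mul_of_nonneg_left _ hp0.le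
    nlinarith
  have n2 : (2 : ℝ) ^ n ≤ N := by
    rw [hN]
    have : (1 : ℝ) ≤ ((n : ℝ) + 1) ^ 2 := by nlinarith
    nlinarith
  have n3 : (2 : ℝ) ^ n * (n : ℝ) ≤ N := by
    rw [hN]
    apply mul_le_mul_of_nonneg_left _ hp0.le
    nlinarith
  have g1 := mul_le_mul n1 hls (lsi_nonneg d H π) hN0.le
  have g2 := mul_le_mul_of_nonneg_right n2 hc0.le
  have g3 := mul_le_mul_of_nonneg_right n3 (rsi_nonneg d H π x)
  have g4 := mul_le_mul_of_nonneg_right n3 (rsi_nonneg d H π y)
  -- the exceptional events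
  have g7 : (n : ℝ) * n * (1 / (Fintype.card V : ℝ)) +
      (n * (1 / (Fintype.card V : ℝ)) + n * (1 / (Fintype.card V : ℝ))) ≤ u / 2 := by
    have q1 : 2 * ((n : ℝ) ^ 2 + 2 * n) / u ≤ Fintype.card V :=
      hN0'.trans (by exact_mod_cast hV)
    rw [div_le_iff₀ hu0] at q1
    have q2 : (n : ℝ) * n * (1 / (Fintype.card V : ℝ)) +
        (n * (1 / (Fintype.card V : ℝ)) + n * (1 / (Fintype.card V : ℝ))) =
        ((n : ℝ) ^ 2 + 2 * n) / Fintype.card V := by
      field_simp
      ring
    rw [q2, div_le_iff₀ hnV]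
    linarith
  have g5 : 2 * (N * c) ≤ N * (rsi d H π x + rsi d H π y) := by
    have : u ≤ (N * c + N * c + (N * rsi d H π x + N * rsi d H π y)) + u / 2 := by linarith
    rw [mul_add]
    linarith
  have g6 : 2 * c ≤ rsi d H π x + rsi d H π y := by
    have : N * (2 * c) ≤ N * (rsi d H π x + rsi d H π y) := by linarith
    exact le_of_mul_le_mul_left this hN0
  linarith

end Pool.Agent.N644.NT.XVH
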